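import Mathlib
import Pool.Agent.W313.HB.Stm4
import Pool.Agent.W554.HB.Type

/-!
# HB-RATIO1: the theorem with one parameter as a limit of proportions
-/

set_option autoImplicit false
set_option linter.all false

namespace Pool.Agent.W236.HB

open Finset Polynomial
open Pool.Agent.W313.BMX (Splits)
open Pool.Agent.W313.HB

/-- every nonzero rational is a squarefree integer times a square -/
theorem sqf_part (q : ℚ) (hq : q ≠ 0) :
    ∃ (a0 : ℤ) (s : ℚ), Squarefree a0 ∧ s ≠ 0 ∧ q = a0 * s ^ 2 := by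
  obtain ⟨a, b, hab, hsf⟩ := Nat.sq_mul_squarefree (q.num.natAbs * q.den)
  have hnum : q.num ≠ 0 := Rat.num_ne_zero.2 hq
  have hden : (q.den : ℚ) ≠ 0 := by exact_mod_cast q.den_nz
  have hb : b ≠ 0 := by
    rintro rfl
    have h1 : q.num.natAbs * q.den ≠ 0 := by
      have := q.den_nz
      have := Int.natAbs_ne_zero.2 hnum
      positivity
    exact h1 (by rw [← hab]; simp)
  refine ⟨q.num.sign * a, (b : ℚ) / q.den, ?_, ?_, ?_⟩
  · rw [← Int.squarefree_natAbs, Int.natAbs_mul, Int.natAbs_sign_of_ne_zero hnum]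
    simpa using hsf
  · apply div_ne_zero
    · exact_mod_cast hb
    · exact hden
  · have h1 : ((b : ℚ) ^ 2 * a) = (q.num.natAbs : ℚ) * q.den := by exact_mod_cast hab
    have h2 : (q.num : ℚ) = (q.num.sign : ℚ) * (q.num.natAbs : ℚ) := by
      have h := congrArg (fun t : ℤ => (t : ℚ)) (Int.sign_mul_natAbs q.num)
      simp only [Int.cast_mul, Int.cast_natCast] at h
      exact h.symm
    have key : q * (q.den : ℚ) ^ 2 = (q.num.sign : ℚ) * ((b : ℚ) ^ 2 * a) := by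
      rw [h1]
      calc q * (q.den : ℚ) ^ 2 = (q * q.den) * q.den := by ring
        _ = (q.num : ℚ) * q.den := by rw [Rat.mul_den_eq_num]
        _ = (q.num.sign : ℚ) * ((q.num.natAbs : ℚ) * q.den) := by rw [← mul_assoc, ← h2]
    rw [div_pow, ← mul_div_assoc, eq_div_iff (pow_ne_zero 2 hden), key]
    push_cast
    ring

theorem aeval_cast {n : ℕ} {K : Type} [Field K] [CharZero K] (G : MvPolynomial (Fin (n + 1)) ℤ)
    (x : Fin (n + 1) → ℚ) :
    MvPolynomial.aeval (fun i => (x i : K)) G = ((MvPolynomial.aeval x G : ℚ) : K) := by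
  induction G using MvPolynomial.induction_on with
  | C a => simp
  | add p q hp hq => simp only [map_add, hp, hq]; push_cast; rfl
  | mul_X p i hp => simp only [map_mul, hp, MvPolynomial.aeval_X]; push_cast; rfl

theorem splits_of_sq {K : Type} [Field K] {u v c : K} (h : u = c ^ 2) : Splits u v :=
  ⟨1, 0, c, Or.inl one_ne_zero, by rw [h]; ring⟩

theorem splits_cast {K : Type} [Field K] [CharZero K] {u v : ℚ} (h : Splits u v) :
    Splits (u : K) (v : K) := by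
  obtain ⟨x, y, z, h0, h1⟩ := h
  refine ⟨x, y, z, ?_, by exact_mod_cast congrArg (fun t : ℚ => (t : K)) h1⟩
  rcases h0 with h0 | h0 | h0
  · exact Or.inl (by exact_mod_cast h0)
  · exact Or.inr (Or.inl (by exact_mod_cast h0))
  · exact Or.inr (Or.inr (by exact_mod_cast h0))

theorem haspw_of_glob {n : ℕ} (A B : MvPolynomial (Fin (n + 1)) ℤ) (a : ℤ)
    (Ωr : Set (Fin (n + 1) → ℝ)) (Ω : ∀ p : Nat.Primes, Set (Fin (n + 1) → ℚ_[(p : ℕ)]))
    (h : GlobW A B a a Ωr Ω) : HasPW A B a a Ωr ∧ ∀ p : Nat.Primes, HasPW A B a a (Ω p) := by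
  obtain ⟨x, hr, hp, hA, hB, hs⟩ := h
  refine ⟨⟨_, hr, ?_, ?_, ?_⟩, fun p => ⟨_, hp p, ?_, ?_, ?_⟩⟩
  · rw [aeval_cast]; exact_mod_cast hA
  · rw [aeval_cast]; exact_mod_cast hB
  · rw [aeval_cast, aeval_cast]
    have := splits_cast (K := ℝ) hs
    push_cast at this
    exact this
  · rw [aeval_cast]; exact_mod_cast hA
  · rw [aeval_cast]; exact_mod_cast hB
  · rw [aeval_cast, aeval_cast]
    have := splits_cast (K := ℚ_[(p : ℕ)]) hs
    push_cast at this
    exact this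

theorem haspw_neg {n : ℕ} {K : Type} [Field K] (A B : MvPolynomial (Fin (n + 1)) ℤ) (a : ℤ)
    (Ω : Set (Fin (n + 1) → K)) (h : HasPW A B (-a) (-a) Ω) : HasPW (-A) (-B) a a Ω := by
  obtain ⟨x, hx, hA, hB, hs⟩ := h
  refine ⟨x, hx, by simpa using hA, by simpa using hB, ?_⟩
  have h1 : (a : K) * MvPolynomial.aeval x (-A) = ((-a : ℤ) : K) * MvPolynomial.aeval x A := by
    rw [map_neg]; push_cast; ring
  have h2 : (a : K) * MvPolynomial.aeval x (-B) = ((-a : ℤ) : K) * MvPolynomial.aeval x B := by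
    rw [map_neg]; push_cast; ring
  rw [h1, h2]
  exact hs

theorem glob_neg {n : ℕ} (A B : MvPolynomial (Fin (n + 1)) ℤ) (a : ℤ)
    (Ωr : Set (Fin (n + 1) → ℝ)) (Ω : ∀ p : Nat.Primes, Set (Fin (n + 1) → ℚ_[(p : ℕ)]))
    (h : GlobW (-A) (-B) a a Ωr Ω) : GlobW A B (-a) (-a) Ωr Ω := by
  obtain ⟨x, hr, hp, hA, hB, hs⟩ := h
  refine ⟨x, hr, hp, by simpa using hA, by simpa using hB, ?_⟩
  have h1 : (a : ℚ) * MvPolynomial.aeval x (-A) = ((-a : ℤ) : ℚ) * MvPolynomial.aeval x A := by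
    rw [map_neg]; push_cast; ring
  have h2 : (a : ℚ) * MvPolynomial.aeval x (-B) = ((-a : ℤ) : ℚ) * MvPolynomial.aeval x B := by
    rw [map_neg]; push_cast; ring
  rw [← h1, ← h2]
  exact hs

theorem density (hd : S_DONE) (he : S_ELSB1) (hx : S_XAPP) (n α β : ℕ)
    (A B : MvPolynomial (Fin (n + 1)) ℤ)
    (hA : A.IsHomogeneous (2 * α)) (hB : B.IsHomogeneous (2 * β)) (hab : 1 ≤ α + β)
    (hsq : Squarefree (MvPolynomial.map (Int.castRingHom ℚ) (A * B)))
    (Ωr : Set (Fin (n + 1) → ℝ)) (Ω : ∀ p : Nat.Primes, Set (Fin (n + 1) → ℚ_[(p : ℕ)]))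
    (hΩr : IsOpen Ωr) (hΩ : ∀ p, IsOpen (Ω p)) (hfin : {p : Nat.Primes | Ω p ≠ Set.univ}.Finite)
    (hne : Ωr.Nonempty) (hnep : ∀ p, (Ω p).Nonempty) :
    ∃ c : ℝ, 0 < c ∧ ∃ H0 : ℕ, ∀ H : ℕ, H0 ≤ H → c * (H : ℝ) ≤ ((locc1 A B Ωr Ω H).card : ℝ) := by
  classical
  have hAB0 : A * B ≠ 0 := by
    intro h0
    rw [h0, map_zero] at hsq
    exact hsq.ne_zero rfl
  obtain ⟨x0, hx0r, hx0p, hx0⟩ := hx n (A * B) hAB0 Ωr Ω hΩr hΩ hfin hne hnep
  rw [map_mul] at hx0
  have hA0 : MvPolynomial.aeval x0 A ≠ 0 := left_ne_zero_of_mul hx0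
  have hB0 : MvPolynomial.aeval x0 B ≠ 0 := right_ne_zero_of_mul hx0
  obtain ⟨a0, s, ha0, hs0, has⟩ := sqf_part _ hA0
  obtain ⟨z0, hz0⟩ := he n α β A B hA hB hab hsq
  set z : ℕ := 100 + z0 + ∑ p ∈ hfin.toFinset, (p : ℕ) with hz
  obtain ⟨c, hc, H0, hH0⟩ := hd z 5 a0 (by omega) (by norm_num) ha0
  refine ⟨c, hc, H0, fun H hH => (hH0 H hH).trans ?_⟩
  have hsub : (Icc (-(H : ℤ)) H).filter (fun x : ℤ => Squarefree x ∧ 0 < x * a0 ∧
      ((primorial z ^ 5 : ℕ) : ℤ) ∣ x - a0) ⊆ locc1 A B Ωr Ω H := by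
    intro x hx
    rw [mem_filter] at hx
    obtain ⟨hxI, hxs, hpos, hdvd⟩ := hx
    unfold locc1
    rw [mem_filter]
    refine ⟨hxI, hxs, ⟨_, hx0r, ?_, ?_, ?_⟩, fun p => ?_⟩
    · rw [aeval_cast]; exact_mod_cast hA0
    · rw [aeval_cast]; exact_mod_cast hB0
    · rw [aeval_cast, aeval_cast, has]
      apply splits_of_sq (c := Real.sqrt ((x * a0 : ℤ) : ℝ) * s)
      rw [mul_pow, Real.sq_sqrt (by exact_mod_cast hpos.le)]
      push_cast
      ring
    · by_cases hpz : (p : ℕ) ≤ z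
      · refine ⟨_, hx0p p, ?_, ?_, ?_⟩
        · rw [aeval_cast]; exact_mod_cast hA0
        · rw [aeval_cast]; exact_mod_cast hB0
        · rw [aeval_cast, aeval_cast, has]
          have hpd : (p : ℕ) ∣ primorial z := by
            unfold primorial
            apply Finset.dvd_prod_of_mem
            simp only [mem_filter, mem_range]
            exact ⟨by omega, p.2⟩
          have h4 : (((p : ℕ) ^ 4 : ℕ) : ℤ) ∣ x - a0 := by
            refine dvd_trans ?_ hdvd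
            exact_mod_cast (pow_dvd_pow _ (by norm_num : 4 ≤ 5)).trans (pow_dvd_pow_of_dvd hpd 5)
          haveI : Fact ((p : ℕ)).Prime := ⟨p.2⟩
          obtain ⟨c, hc, hxc⟩ := Pool.Agent.W554.HB.near_sqf (p := (p : ℕ)) (a := x) (a1 := a0) ha0 (by
            rw [eq_comm, ZMod.intCast_eq_intCast_iff_dvd_sub]
            exact_mod_cast h4)
          apply splits_of_sq (c := (a0 : ℚ_[(p : ℕ)]) * c * s)
          rw [hxc]
          push_cast
          ring
      · push Not at hpz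
        have huniv : Ω p = Set.univ := by
          by_contra hcon
          have h1 : p ∈ hfin.toFinset := by simpa using hcon
          have h2 : (p : ℕ) ≤ ∑ p ∈ hfin.toFinset, (p : ℕ) :=
            Finset.single_le_sum (f := fun p : Nat.Primes => (p : ℕ)) (fun _ _ => Nat.zero_le _) h1
          omega
        rw [huniv]
        haveI : Fact ((p : ℕ)).Prime := ⟨p.2⟩
        exact hz0 (p : ℕ) (by omega) x hxs
  exact_mod_cast Finset.card_le_card hsub

theorem ratio1_ (ht : S_T1W) (hd : S_DONE) (he : S_ELSB1) (hx : S_XAPP) : S_RATIO1 := by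
  classical
  intro n α β A B hA hB hab hsq Ωr Ω hΩr hΩ hfin hne hnep
  obtain ⟨c, hc, H0, hH0⟩ := density hd he hx n α β A B hA hB hab hsq Ωr Ω hΩr hΩ hfin hne hnep
  refine ⟨⟨c, hc, H0, hH0⟩, ?_⟩
  rw [Metric.tendsto_atTop]
  intro ε hε
  obtain ⟨N1, hN1⟩ := ht n α β A B hA hB hab hsq Ωr Ω hΩr hΩ hfin (c * ε / 4) (by positivity)
  obtain ⟨N2, hN2⟩ := ht n α β (-A) (-B) hA.neg hB.neg hab (by rw [neg_mul_neg]; exact hsq) Ωr Ω hΩr
    hΩ hfin (c * ε / 4) (by positivity)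
  refine ⟨H0 + N1 + N2 + 1, fun H hH => ?_⟩
  have h0 := hH0 H (by omega)
  have h1 := hN1 H (by omega)
  have h2 := hN2 H (by omega)
  have hHpos : (0 : ℝ) < H := by exact_mod_cast (by omega : 0 < H)
  have hsub : glob1 A B Ωr Ω H ⊆ locc1 A B Ωr Ω H := by
    intro a ha
    unfold glob1 at ha
    unfold locc1
    rw [mem_filter] at ha ⊢
    exact ⟨ha.1, ha.2.1, haspw_of_glob A B a Ωr Ω ha.2.2⟩
  have hbad : (locc1 A B Ωr Ω H) \ (glob1 A B Ωr Ω H) ⊆
      ((Icc 1 H).filter (fun a : ℕ => Squarefree a ∧ HasPW A B (a : ℤ) (a : ℤ) Ωr ∧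
        (∀ p : Nat.Primes, HasPW A B (a : ℤ) (a : ℤ) (Ω p)) ∧
        ¬ GlobW A B (a : ℤ) (a : ℤ) Ωr Ω)).image (fun a : ℕ => (a : ℤ)) ∪
      ((Icc 1 H).filter (fun a : ℕ => Squarefree a ∧ HasPW (-A) (-B) (a : ℤ) (a : ℤ) Ωr ∧
        (∀ p : Nat.Primes, HasPW (-A) (-B) (a : ℤ) (a : ℤ) (Ω p)) ∧
        ¬ GlobW (-A) (-B) (a : ℤ) (a : ℤ) Ωr Ω)).image (fun a : ℕ => -(a : ℤ)) := by
    intro a ha
    unfold glob1 locc1 at ha
    rw [mem_sdiff, mem_filter, mem_filter, mem_Icc] at ha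
    obtain ⟨⟨haI, has, har, hap⟩, hng⟩ := ha
    have hng' : ¬ GlobW A B a a Ωr Ω := fun hg => hng ⟨haI, has, hg⟩
    have hane : a ≠ 0 := has.ne_zero
    rw [mem_union, mem_image, mem_image]
    rcases lt_or_gt_of_ne hane with hneg | hpos
    · right
      refine ⟨a.natAbs, ?_, by omega⟩
      have hcast : a = -((a.natAbs : ℕ) : ℤ) := by omega
      rw [mem_filter, mem_Icc]
      refine ⟨by omega, Int.squarefree_natAbs.2 has, ?_, fun p => ?_, fun hg => ?_⟩
      · apply haspw_neg; rw [← hcast]; exact har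
      · apply haspw_neg; rw [← hcast]; exact hap p
      · apply hng'
        have := glob_neg A B _ Ωr Ω hg
        rw [← hcast] at this
        exact this
    · left
      refine ⟨a.natAbs, ?_, by omega⟩
      have hcast : ((a.natAbs : ℕ) : ℤ) = a := by omega
      rw [mem_filter, mem_Icc, hcast]
      exact ⟨by omega, Int.squarefree_natAbs.2 has, har, hap, hng'⟩
  have hcard : (((locc1 A B Ωr Ω H) \ (glob1 A B Ωr Ω H)).card : ℝ) ≤ c * ε / 4 * H + c * ε / 4 * H := by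
    have h3 := (Finset.card_le_card hbad).trans (Finset.card_union_le _ _)
    have h4 := h3.trans (Nat.add_le_add Finset.card_image_le Finset.card_image_le)
    have h5 : (((locc1 A B Ωr Ω H) \ (glob1 A B Ωr Ω H)).card : ℝ) ≤ _ := Nat.cast_le.2 h4
    rw [Nat.cast_add] at h5
    exact h5.trans (add_le_add h1 h2)
  have hL : (0 : ℝ) < ((locc1 A B Ωr Ω H).card : ℝ) := lt_of_lt_of_le (by positivity) h0
  have hdiff : (((locc1 A B Ωr Ω H) \ (glob1 A B Ωr Ω H)).card : ℝ) =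
      ((locc1 A B Ωr Ω H).card : ℝ) - ((glob1 A B Ωr Ω H).card : ℝ) := by
    rw [Finset.cast_card_sdiff hsub]
  rw [Real.dist_eq, abs_sub_comm, abs_of_nonneg]
  · have h6 : 1 - ((glob1 A B Ωr Ω H).card : ℝ) / ((locc1 A B Ωr Ω H).card : ℝ) =
      (((locc1 A B Ωr Ω H) \ (glob1 A B Ωr Ω H)).card : ℝ) / ((locc1 A B Ωr Ω H).card : ℝ) := by
      rw [hdiff]; field_simp
    rw [h6, div_lt_iff₀ hL]
    have h7 : c * ε / 4 * H + c * ε / 4 * H < ε * (c * H) := by
      have : 0 < c * ε * H := by positivity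
      nlinarith
    calc _ ≤ _ := hcard
      _ < ε * (c * H) := h7
      _ ≤ _ := mul_le_mul_of_nonneg_left h0 hε.le
  · rw [sub_nonneg, div_le_one hL]
    exact_mod_cast Finset.card_le_card hsub

end Pool.Agent.W236.HB
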